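import Mathlib

/-!
The case `k = 2` of the Brenner–Foster question.
-/

set_option autoImplicit false

namespace Pool.Agent.Results.MP_b7b898_nt.TwoTerms

open NumberTheorySymbols

/-- the data `(p_i, ε_i)` is reducible to a congruence -/
def Reducible (k : ℕ) (p : Fin k → ℕ) (ε : Fin k → ℤ) : Prop :=
  ∃ M : ℕ, 1 ≤ M ∧ ∀ x : Fin k → ℕ,
    (∑ i, ε i * (p i : ℤ) ^ x i = 0 ↔ (M : ℤ) ∣ ∑ i, ε i * (p i : ℤ) ^ x i)

lemma J_one (p M : ℕ) (hp : p.Prime) (hM : M % 8 = 7) (h : p ∣ M + 1) : J((p : ℤ) | M) = 1 := by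
  have hMo : Odd M := Nat.odd_iff.mpr (by omega)
  rcases hp.eq_two_or_odd with rfl | hodd
  · have := jacobiSym.at_two hMo
    rw [Nat.cast_ofNat, this, ZMod.χ₈_nat_eq_if_mod_eight]
    rw [if_neg (by omega), if_pos (by omega)]
  · have hpo : Odd p := Nat.odd_iff.mpr hodd
    have hmod : J((M : ℤ) | p) = J(-1 | p) := by
      apply jacobiSym.mod_left'
      have : (M : ℤ) ≡ -1 [ZMOD p] := by
        apply Int.ModEq.symm
        rw [Int.modEq_iff_dvd]
        have : ((p : ℕ) : ℤ) ∣ ((M + 1 : ℕ) : ℤ) := Int.natCast_dvd_natCast.mpr h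
        simpa using this
      exact this
    rcases Nat.odd_mod_four_iff.mp hodd with h1 | h3
    · rw [jacobiSym.quadratic_reciprocity_one_mod_four h1 hMo, hmod, jacobiSym.at_neg_one hpo,
        ZMod.χ₄_nat_one_mod_four h1]
    · rw [jacobiSym.quadratic_reciprocity_three_mod_four h3 (by omega), hmod, jacobiSym.at_neg_one hpo,
        ZMod.χ₄_nat_three_mod_four h3]
      norm_num

lemma not_dvd (p q : ℕ) (hp : p.Prime) (hq : q.Prime) (x y : ℕ) :
    ¬ (((8 * (p * q) - 1 : ℕ) : ℤ) ∣ (p : ℤ) ^ x + (q : ℤ) ^ y) := by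
  set M := 8 * (p * q) - 1 with hMdef
  have hpq : 0 < p * q := Nat.mul_pos hp.pos hq.pos
  have hM8 : M % 8 = 7 := by omega
  have hM1 : M + 1 = 8 * (p * q) := by omega
  have hp1 : p ∣ M + 1 := by rw [hM1]; exact Dvd.dvd.mul_left (Dvd.intro _ rfl) 8
  have hq1 : q ∣ M + 1 := by rw [hM1]; exact Dvd.dvd.mul_left (Dvd.intro_left _ rfl) 8
  have hMo : Odd M := Nat.odd_iff.mpr (by omega)
  intro hd
  have hcong : J((p : ℤ) ^ x | M) = J(-1 * (q : ℤ) ^ y | M) := by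
    apply jacobiSym.mod_left'
    have : (p : ℤ) ^ x ≡ -1 * (q : ℤ) ^ y [ZMOD M] := by
      apply Int.ModEq.symm
      rw [Int.modEq_iff_dvd]
      have e : (p : ℤ) ^ x - -1 * (q : ℤ) ^ y = (p : ℤ) ^ x + (q : ℤ) ^ y := by ring
      rw [e]; exact hd
    exact this
  rw [jacobiSym.pow_left, jacobiSym.mul_left, jacobiSym.pow_left, J_one p M hp hM8 hp1,
    J_one q M hq hM8 hq1, jacobiSym.at_neg_one hMo, ZMod.χ₄_nat_three_mod_four (by omega)] at hcong
  norm_num at hcong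

theorem result (p : Fin 2 → ℕ) (hp : ∀ i, (p i).Prime) (ε : Fin 2 → ℤ)
    (hε : ∀ i, ε i = 1 ∨ ε i = -1) :
    Reducible 2 p ε ↔ ¬ (p 0 = p 1 ∧ ε 0 ≠ ε 1) := by
  constructor
  · rintro ⟨M, hM, h⟩ ⟨hpp, hee⟩
    have : NeZero M := ⟨by omega⟩
    obtain ⟨a, b, hab, hf⟩ := Finite.exists_ne_map_eq_of_infinite (fun n : ℕ => ((p 0 : ZMod M)) ^ n)
    have hsum : ∀ u v : ℕ, ∑ i, ε i * (p i : ℤ) ^ (![u, v] : Fin 2 → ℕ) i
        = ε 0 * ((p 0 : ℤ) ^ u - (p 0 : ℤ) ^ v) := by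
      intro u v
      rw [Fin.sum_univ_two]
      simp only [Matrix.cons_val_zero, Matrix.cons_val_one]
      have : ε 1 = - ε 0 := by
        have h0 := hε 0
        have h1 := hε 1
        omega
      rw [this, ← hpp]; ring
    have hdvd : (M : ℤ) ∣ (p 0 : ℤ) ^ a - (p 0 : ℤ) ^ b := by
      rw [← ZMod.intCast_zmod_eq_zero_iff_dvd]
      push_cast
      have this : ((p 0 : ZMod M)) ^ a = ((p 0 : ZMod M)) ^ b := hf
      rw [this, sub_self]
    have h1 := (h ![a, b]).mpr (by rw [hsum]; exact Dvd.dvd.mul_left hdvd _)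
    rw [hsum] at h1
    have hne : ε 0 ≠ 0 := by rcases hε 0 with h0 | h0 <;> rw [h0] <;> norm_num
    have h2 := (mul_eq_zero.mp h1).resolve_left hne
    have h3 : (p 0) ^ a = (p 0) ^ b := by
      have : (p 0 : ℤ) ^ a = (p 0 : ℤ) ^ b := by linarith
      exact_mod_cast this
    exact hab (Nat.pow_right_injective (hp 0).two_le h3)
  · intro h
    by_cases hee : ε 0 = ε 1
    · refine ⟨8 * (p 0 * p 1) - 1, ?_, fun x => ?_⟩
      · have := Nat.mul_pos (hp 0).pos (hp 1).pos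
        omega
      · have hs : ∑ i, ε i * (p i : ℤ) ^ x i = ε 0 * ((p 0 : ℤ) ^ x 0 + (p 1 : ℤ) ^ x 1) := by
          rw [Fin.sum_univ_two, ← hee]; ring
        rw [hs]
        constructor
        · intro h0; rw [h0]; exact dvd_zero _
        · intro hd
          exfalso
          apply not_dvd (p 0) (p 1) (hp 0) (hp 1) (x 0) (x 1)
          rcases hε 0 with h0 | h0
          · rwa [h0, one_mul] at hd
          · rw [h0] at hd
            have := (dvd_neg).mpr hd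
            rwa [show -(-1 * ((p 0 : ℤ) ^ x 0 + (p 1 : ℤ) ^ x 1)) = (p 0 : ℤ) ^ x 0 + (p 1 : ℤ) ^ x 1 by ring] at this
    · have hpp : p 0 ≠ p 1 := fun h' => h ⟨h', hee⟩
      have he1 : ε 1 = - ε 0 := by
        have h0 := hε 0
        have h1 := hε 1
        omega
      refine ⟨p 0 * p 1, Nat.mul_pos (hp 0).pos (hp 1).pos, fun x => ?_⟩
      have hs : ∑ i, ε i * (p i : ℤ) ^ x i = ε 0 * ((p 0 : ℤ) ^ x 0 - (p 1 : ℤ) ^ x 1) := by
        rw [Fin.sum_univ_two, he1]; ring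
      rw [hs]
      constructor
      · intro h0; rw [h0]; exact dvd_zero _
      · intro hd
        have hd' : ((p 0 * p 1 : ℕ) : ℤ) ∣ (p 0 : ℤ) ^ x 0 - (p 1 : ℤ) ^ x 1 := by
          rcases hε 0 with h0 | h0
          · rwa [h0, one_mul] at hd
          · rw [h0] at hd
            have := (dvd_neg).mpr hd
            rwa [show -(-1 * ((p 0 : ℤ) ^ x 0 - (p 1 : ℤ) ^ x 1)) = (p 0 : ℤ) ^ x 0 - (p 1 : ℤ) ^ x 1 by ring] at this
        have hp0 : (p 0 : ℤ) ∣ (p 0 : ℤ) ^ x 0 - (p 1 : ℤ) ^ x 1 :=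
          dvd_trans ⟨(p 1 : ℤ), by push_cast; ring⟩ hd'
        have hp1 : (p 1 : ℤ) ∣ (p 0 : ℤ) ^ x 0 - (p 1 : ℤ) ^ x 1 :=
          dvd_trans ⟨(p 0 : ℤ), by push_cast; ring⟩ hd'
        have P0 : Prime (p 0 : ℤ) := Nat.prime_iff_prime_int.mp (hp 0)
        have P1 : Prime (p 1 : ℤ) := Nat.prime_iff_prime_int.mp (hp 1)
        have hx0 : x 0 = 0 := by
          by_contra hne
          have h1 : (p 0 : ℤ) ∣ (p 1 : ℤ) ^ x 1 := by
            have := (dvd_sub_right (dvd_pow_self (p 0 : ℤ) hne)).mp hp0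
            exact this
          have h2 := P0.dvd_of_dvd_pow h1
          have h3 : p 0 ∣ p 1 := Int.natCast_dvd_natCast.mp h2
          exact hpp ((Nat.prime_dvd_prime_iff_eq (hp 0) (hp 1)).mp h3)
        have hx1 : x 1 = 0 := by
          by_contra hne
          have h1 : (p 1 : ℤ) ∣ (p 0 : ℤ) ^ x 0 := by
            have := (dvd_sub_left (dvd_pow_self (p 1 : ℤ) hne)).mp hp1
            exact this
          have h2 := P1.dvd_of_dvd_pow h1
          have h3 : p 1 ∣ p 0 := Int.natCast_dvd_natCast.mp h2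
          exact hpp ((Nat.prime_dvd_prime_iff_eq (hp 1) (hp 0)).mp h3).symm
        rw [hx0, hx1]; ring

end Pool.Agent.Results.MP_b7b898_nt.TwoTerms
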